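import Pool.Agent.Helper40.Nm.Goals

/-!
Translations by sections of a group scheme (packet TRANS, MP_f619a5_ag).
-/

open CategoryTheory AlgebraicGeometry Limits TensorProduct

namespace Pool.Agent.Helper5.Nm

open Pool.Agent.Helper40.Nm

section Abs

variable {C : Type*} [Category C] [CartesianMonoidalCategory C] {G I : C} [GrpObj G]

/-- left translation by `s` -/
noncomputable def tl (z : G ⟶ I) (s : I ⟶ G) : G ⟶ G := (z ≫ s) * 𝟙 G

/-- right translation by `s` -/
noncomputable def trr (z : G ⟶ I) (s : I ⟶ G) : G ⟶ G := 𝟙 G * (z ≫ s)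

theorem comp_tl (hI : ∀ (X : C) (a b : X ⟶ I), a = b) (z : G ⟶ I) (s r : I ⟶ G) :
    r ≫ tl z s = s * r := by
  rw [tl, MonObj.comp_mul, ← Category.assoc, hI _ (r ≫ z) (𝟙 I), Category.id_comp,
    Category.comp_id]

theorem comp_trr (hI : ∀ (X : C) (a b : X ⟶ I), a = b) (z : G ⟶ I) (s r : I ⟶ G) :
    r ≫ trr z s = r * s := by
  rw [trr, MonObj.comp_mul, ← Category.assoc, hI _ (r ≫ z) (𝟙 I), Category.id_comp,
    Category.comp_id]

theorem tl_comp_tl (hI : ∀ (X : C) (a b : X ⟶ I), a = b) (z : G ⟶ I) (s s' : I ⟶ G) :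
    tl z s ≫ tl z s' = tl z (s' * s) := by
  rw [tl, tl, tl, MonObj.comp_mul, Category.comp_id, ← Category.assoc, hI _ (_ ≫ z) z,
    MonObj.comp_mul, mul_assoc]

theorem trr_comp_trr (hI : ∀ (X : C) (a b : X ⟶ I), a = b) (z : G ⟶ I) (s s' : I ⟶ G) :
    trr z s ≫ trr z s' = trr z (s * s') := by
  rw [trr, trr, trr, MonObj.comp_mul, Category.comp_id, ← Category.assoc, hI _ (_ ≫ z) z,
    MonObj.comp_mul, mul_assoc]

theorem tl_one (z : G ⟶ I) : tl z (1 : I ⟶ G) = 𝟙 G := by
  rw [tl, MonObj.comp_one, one_mul]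

theorem trr_one (z : G ⟶ I) : trr z (1 : I ⟶ G) = 𝟙 G := by
  rw [trr, MonObj.comp_one, mul_one]

/-- left translation as an isomorphism -/
noncomputable def tlIso (hI : ∀ (X : C) (a b : X ⟶ I), a = b) (z : G ⟶ I) (s : I ⟶ G) : G ≅ G where
  hom := tl z s
  inv := tl z s⁻¹
  hom_inv_id := by rw [tl_comp_tl hI, inv_mul_cancel, tl_one]
  inv_hom_id := by rw [tl_comp_tl hI, mul_inv_cancel, tl_one]

/-- right translation as an isomorphism -/
noncomputable def trrIso (hI : ∀ (X : C) (a b : X ⟶ I), a = b) (z : G ⟶ I) (s : I ⟶ G) : G ≅ G where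
  hom := trr z s
  inv := trr z s⁻¹
  hom_inv_id := by rw [trr_comp_trr hI, mul_inv_cancel, trr_one]
  inv_hom_id := by rw [trr_comp_trr hI, inv_mul_cancel, trr_one]

end Abs

theorem aux {R : Type} [CommRing R] [IsLocalRing R] (G : Over (Spec (CommRingCat.of R)))
    (f : (specOver (RingHom.id R) ⟶ G) → (specOver (RingHom.id R) ⟶ G)) (e : G ≅ G)
    (h : ∀ r, r ≫ e.hom = f r) :
    ∃ τ : G.left ≃ₜ G.left, (∀ r : specOver (RingHom.id R) ⟶ G, cpt (f r) = τ (cpt r)) ∧
      ∀ x, τ x ∈ specialFibre G ↔ x ∈ specialFibre G := by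
  refine ⟨Scheme.homeoOfIso ((Over.forget _).mapIso e), fun r => ?_, fun x => ?_⟩
  · rw [← h r]
    rfl
  · have h1 : e.hom.left ≫ G.hom = G.hom := Over.w e.hom
    have h2 : G.hom (e.hom.left x) = G.hom x := by
      conv_rhs => rw [← h1]
      rfl
    have h3 : (e.hom.left x ∈ specialFibre G) ↔ x ∈ specialFibre G := by
      rw [specialFibre, Set.mem_preimage, Set.mem_preimage, h2]
    exact h3

theorem trans : TRANS := by
  intro R _ _ G _ s
  have hI : ∀ (X : Over (Spec (CommRingCat.of R))) (a b : X ⟶ specOver (RingHom.id R)), a = b := by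
    intro X a b
    have hid : Spec.map (CommRingCat.ofHom (RingHom.id R)) = 𝟙 _ := by
      rw [← Spec.map_id]
      rfl
    ext1
    have ha := Over.w a
    have hb := Over.w b
    have h1 : a.left ≫ Spec.map (CommRingCat.ofHom (RingHom.id R)) = X.hom := ha
    have h2 : b.left ≫ Spec.map (CommRingCat.ofHom (RingHom.id R)) = X.hom := hb
    rw [hid] at h1 h2
    have h3 : a.left = X.hom := (Category.comp_id (Y := Spec (CommRingCat.of R)) a.left).symm.trans h1
    have h4 : b.left = X.hom := (Category.comp_id (Y := Spec (CommRingCat.of R)) b.left).symm.trans h2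
    exact h3.trans h4.symm
  have hid : Spec.map (CommRingCat.ofHom (RingHom.id R)) = 𝟙 _ := by
    rw [← Spec.map_id]
    rfl
  let z : G ⟶ specOver (RingHom.id R) := Over.homMk G.hom (by
    change G.hom ≫ Spec.map (CommRingCat.ofHom (RingHom.id R)) = G.hom
    rw [hid, Category.comp_id])
  exact ⟨aux G (fun r => s * r) (tlIso hI z s) (fun r => comp_tl hI z s r),
    aux G (fun r => r * s) (trrIso hI z s) (fun r => comp_trr hI z s r)⟩

end Pool.Agent.Helper5.Nm
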